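import Mathlib

set_option autoImplicit false

/-! Growth of finitely generated algebras: comparison of generating subspaces, and the limit of
`log (dim V^n) / log n` from two sided quadratic bounds. -/

namespace Pool.Agent.H127R3.GK

open Filter Topology

variable {k A : Type} [Field k] [Ring A] [Algebra k A]

lemma pow_le_succ {W : Submodule k A} (h1 : (1 : A) ∈ W) (n : ℕ) : W ^ n ≤ W ^ (n + 1) := by
  intro a ha
  rw [pow_succ]
  have := Submodule.mul_mem_mul ha h1
  rwa [mul_one] at this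

lemma pow_mono' {W : Submodule k A} (h1 : (1 : A) ∈ W) : Monotone (fun n : ℕ => W ^ n) :=
  monotone_nat_of_le_succ (pow_le_succ h1)

lemma exists_pow {W : Submodule k A} (h1 : (1 : A) ∈ W)
    (hgen : Algebra.adjoin k (W : Set A) = ⊤) (a : A) : ∃ n : ℕ, a ∈ W ^ n := by
  have ha : a ∈ Algebra.adjoin k (W : Set A) := by rw [hgen]; trivial
  induction ha using Algebra.adjoin_induction with
  | mem x hx => exact ⟨1, by rw [pow_one]; exact hx⟩
  | algebraMap r =>
    refine ⟨1, ?_⟩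
    rw [pow_one, Algebra.algebraMap_eq_smul_one]
    exact W.smul_mem r h1
  | add x y _ _ hx hy =>
    obtain ⟨m, hm⟩ := hx
    obtain ⟨n, hn⟩ := hy
    exact ⟨m + n, add_mem (pow_mono' h1 (Nat.le_add_right m n) hm)
      (pow_mono' h1 (Nat.le_add_left n m) hn)⟩
  | mul x y _ _ hx hy =>
    obtain ⟨m, hm⟩ := hx
    obtain ⟨n, hn⟩ := hy
    exact ⟨m + n, by rw [pow_add]; exact Submodule.mul_mem_mul hm hn⟩

lemma exists_pow_of_finite {W : Submodule k A} (h1 : (1 : A) ∈ W)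
    (hgen : Algebra.adjoin k (W : Set A) = ⊤) {s : Set A} (hs : s.Finite) :
    ∃ n : ℕ, 1 ≤ n ∧ s ⊆ (W ^ n : Submodule k A) := by
  induction s, hs using Set.Finite.induction_on with
  | empty => exact ⟨1, le_rfl, by simp⟩
  | insert _ _ ih =>
    rename_i a s _ _
    obtain ⟨n, hn, h⟩ := ih
    obtain ⟨m, hm⟩ := exists_pow h1 hgen a
    refine ⟨n + m, by omega, ?_⟩
    rintro b (rfl | hb)
    · exact pow_mono' h1 (Nat.le_add_left m n) hm
    · exact pow_mono' h1 (Nat.le_add_right n m) (h hb)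

lemma exists_pow_of_fg {W : Submodule k A} (h1 : (1 : A) ∈ W)
    (hgen : Algebra.adjoin k (W : Set A) = ⊤) {V : Submodule k A} (hV : V.FG) :
    ∃ n : ℕ, 1 ≤ n ∧ V ≤ W ^ n := by
  obtain ⟨s, hs⟩ := hV
  obtain ⟨n, hn, h⟩ := exists_pow_of_finite h1 hgen s.finite_toSet
  exact ⟨n, hn, by rw [← hs]; exact Submodule.span_le.2 h⟩

/-- Two sided quadratic bounds are independent of the generating subspace. -/
theorem quad_bounds {W : Submodule k A} (hW : W.FG) (h1 : (1 : A) ∈ W)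
    (hgen : Algebra.adjoin k (W : Set A) = ⊤)
    (hup : ∀ n : ℕ, Module.finrank k ↥(W ^ n) ≤ 2 * (10 * n + 1) ^ 2)
    (hlow : ∀ n : ℕ, (n / 2 + 1) ^ 2 ≤ Module.finrank k ↥(W ^ n))
    {V : Submodule k A} (hV : V.FG) (h1V : (1 : A) ∈ V)
    (hgenV : Algebra.adjoin k (V : Set A) = ⊤) :
    ∃ c C : ℝ, 0 < c ∧ 0 < C ∧ ∀ n : ℕ, 1 ≤ n →
      c * (n : ℝ) ^ 2 ≤ (Module.finrank k ↥(V ^ n) : ℝ) ∧
      (Module.finrank k ↥(V ^ n) : ℝ) ≤ C * (n : ℝ) ^ 2 := by
  obtain ⟨r, hr, hVW⟩ := exists_pow_of_fg h1 hgen hV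
  obtain ⟨s, hs, hWV⟩ := exists_pow_of_fg h1V hgenV hW
  refine ⟨1 / (4 * (s : ℝ) ^ 2), 242 * (r : ℝ) ^ 2, by positivity, by positivity, ?_⟩
  intro n hn
  constructor
  · have hle : W ^ (n / s) ≤ V ^ n := by
      calc W ^ (n / s) ≤ (V ^ s) ^ (n / s) := pow_le_pow_left' hWV _
        _ = V ^ (s * (n / s)) := by rw [pow_mul]
        _ ≤ V ^ n := pow_mono' h1V (Nat.mul_div_le n s)
    have hfin : Module.Finite k ↥(V ^ n) := Module.Finite.iff_fg.2 (hV.pow n)
    have h2 := Submodule.finrank_mono hle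
    have h3 := (hlow (n / s)).trans h2
    have h4 : ((n / s / 2 + 1 : ℕ) : ℝ) ^ 2 ≤ (Module.finrank k ↥(V ^ n) : ℝ) := by
      exact_mod_cast h3
    refine le_trans ?_ h4
    have h5 : (n : ℝ) / (2 * s) ≤ ((n / s / 2 + 1 : ℕ) : ℝ) := by
      rw [Nat.div_div_eq_div_mul]
      rw [div_le_iff₀ (by positivity)]
      have h6 : n < (n / (s * 2) + 1) * (s * 2) := by
        have h7 := Nat.div_add_mod n (s * 2)
        have h8 := Nat.mod_lt n (show 0 < s * 2 by omega)
        nlinarith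
      have h9 : (n : ℝ) ≤ ((n / (s * 2) + 1) * (s * 2) : ℕ) := by exact_mod_cast h6.le
      push_cast at h9 ⊢
      nlinarith
    have h6 : 0 ≤ (n : ℝ) / (2 * s) := by positivity
    calc 1 / (4 * (s : ℝ) ^ 2) * (n : ℝ) ^ 2 = ((n : ℝ) / (2 * s)) ^ 2 := by
          have : (s : ℝ) ≠ 0 := by positivity
          field_simp; ring
      _ ≤ _ := pow_le_pow_left₀ h6 h5 2
  · have hle : V ^ n ≤ W ^ (r * n) := by
      calc V ^ n ≤ (W ^ r) ^ n := pow_le_pow_left' hVW _
        _ = W ^ (r * n) := by rw [pow_mul]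
    have hfin : Module.Finite k ↥(W ^ (r * n)) := Module.Finite.iff_fg.2 (hW.pow _)
    have h2 := (Submodule.finrank_mono hle).trans (hup (r * n))
    have h3 : (Module.finrank k ↥(V ^ n) : ℝ) ≤ 2 * (10 * ((r : ℝ) * n) + 1) ^ 2 := by
      exact_mod_cast h2
    refine h3.trans ?_
    have h4 : (1 : ℝ) ≤ (r : ℝ) * n := by
      have : 1 ≤ r * n := Nat.mul_pos hr hn
      exact_mod_cast this
    nlinarith

theorem limsup_of_bounds (u : ℕ → ℕ) {c C : ℝ} (hc : 0 < c) (hC : 0 < C)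
    (h : ∀ n : ℕ, 1 ≤ n → c * (n : ℝ) ^ 2 ≤ (u n : ℝ) ∧ (u n : ℝ) ≤ C * (n : ℝ) ^ 2) :
    Filter.limsup (fun n : ℕ =>
        (((Real.log (u n : ℝ)) / Real.log (n : ℝ) : ℝ) : EReal)) Filter.atTop = 2 := by
  have hlog : Tendsto (fun n : ℕ => Real.log (n : ℝ)) atTop atTop :=
    Real.tendsto_log_atTop.comp tendsto_natCast_atTop_atTop
  have t1 : Tendsto (fun n : ℕ => (Real.log c) / Real.log (n : ℝ) + 2) atTop (𝓝 (0 + 2)) :=
    (Tendsto.div_atTop tendsto_const_nhds hlog).add_const 2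
  have t2 : Tendsto (fun n : ℕ => (Real.log C) / Real.log (n : ℝ) + 2) atTop (𝓝 (0 + 2)) :=
    (Tendsto.div_atTop tendsto_const_nhds hlog).add_const 2
  have key : Tendsto (fun n : ℕ => (Real.log (u n : ℝ)) / Real.log (n : ℝ)) atTop (𝓝 2) := by
    rw [zero_add] at t1 t2
    refine tendsto_of_tendsto_of_tendsto_of_le_of_le' t1 t2 ?_ ?_
    · filter_upwards [eventually_ge_atTop 2] with n hn
      have hn1 : (1 : ℝ) < n := by exact_mod_cast (show 1 < n by omega)
      have hl : 0 < Real.log (n : ℝ) := Real.log_pos hn1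
      obtain ⟨h1, -⟩ := h n (by omega)
      have hp : 0 < c * (n : ℝ) ^ 2 := by positivity
      have h2 := Real.log_le_log hp h1
      rw [Real.log_mul hc.ne' (by positivity), Real.log_pow] at h2
      rw [le_div_iff₀ hl]
      have : (Real.log c / Real.log (n : ℝ) + 2) * Real.log (n : ℝ) =
          Real.log c + 2 * Real.log (n : ℝ) := by
        field_simp
      rw [this]
      exact_mod_cast h2
    · filter_upwards [eventually_ge_atTop 2] with n hn
      have hn1 : (1 : ℝ) < n := by exact_mod_cast (show 1 < n by omega)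
      have hl : 0 < Real.log (n : ℝ) := Real.log_pos hn1
      obtain ⟨h1, h3⟩ := h n (by omega)
      have hp : 0 < c * (n : ℝ) ^ 2 := by positivity
      have h2 := Real.log_le_log (hp.trans_le h1) h3
      rw [Real.log_mul hC.ne' (by positivity), Real.log_pow] at h2
      rw [div_le_iff₀ hl]
      have : (Real.log C / Real.log (n : ℝ) + 2) * Real.log (n : ℝ) =
          Real.log C + 2 * Real.log (n : ℝ) := by
        field_simp
      rw [this]
      exact_mod_cast h2
  have := (continuous_coe_real_ereal.tendsto 2).comp key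
  exact this.limsup_eq

/-- An algebra with at most quadratic growth contains no three elements `a, b, c` the ordered
monomials in which are linearly independent. -/
theorem no_three {W : Submodule k A} (hW : W.FG) (h1 : (1 : A) ∈ W)
    (hgen : Algebra.adjoin k (W : Set A) = ⊤)
    (hup : ∀ n : ℕ, Module.finrank k ↥(W ^ n) ≤ 2 * (10 * n + 1) ^ 2)
    (a b c : A)
    (hli : ∀ m : ℕ, LinearIndependent k
      (fun t : Fin m × Fin m × Fin m => a ^ (t.1 : ℕ) * b ^ (t.2.1 : ℕ) * c ^ (t.2.2 : ℕ))) :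
    False := by
  obtain ⟨r, hr, hs⟩ := exists_pow_of_finite h1 hgen (Set.toFinite ({a, b, c} : Set A))
  have ha : a ∈ W ^ r := hs (by simp)
  have hb : b ∈ W ^ r := hs (by simp)
  have hc : c ∈ W ^ r := hs (by simp)
  have hpow : ∀ (e : A), e ∈ W ^ r → ∀ j m : ℕ, j ≤ m → e ^ j ∈ W ^ (r * m) := by
    intro e he j m hjm
    have h2 : e ^ j ∈ (W ^ r) ^ j := Submodule.pow_mem_pow _ he j
    rw [← pow_mul] at h2
    exact pow_mono' h1 (Nat.mul_le_mul_left r hjm) h2
  obtain ⟨m, hm⟩ : ∃ m : ℕ, m = 1922 * r ^ 2 + 1 := ⟨_, rfl⟩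
  have hfin : Module.Finite k ↥(W ^ (r * m + r * m + r * m)) :=
    Module.Finite.iff_fg.2 (hW.pow _)
  have hmem : ∀ t : Fin m × Fin m × Fin m,
      a ^ (t.1 : ℕ) * b ^ (t.2.1 : ℕ) * c ^ (t.2.2 : ℕ) ∈ W ^ (r * m + r * m + r * m) := by
    intro t
    rw [pow_add, pow_add]
    exact Submodule.mul_mem_mul (Submodule.mul_mem_mul (hpow a ha _ m t.1.2.le)
      (hpow b hb _ m t.2.1.2.le)) (hpow c hc _ m t.2.2.2.le)
  have hli' : LinearIndependent k (fun t : Fin m × Fin m × Fin m =>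
      (⟨a ^ (t.1 : ℕ) * b ^ (t.2.1 : ℕ) * c ^ (t.2.2 : ℕ), hmem t⟩ :
        ↥(W ^ (r * m + r * m + r * m)))) := by
    apply LinearIndependent.of_comp (W ^ (r * m + r * m + r * m)).subtype
    exact hli m
  have hcard := hli'.fintype_card_le_finrank
  rw [Fintype.card_prod, Fintype.card_prod, Fintype.card_fin] at hcard
  have h3 := hcard.trans (hup _)
  have h4 : 1 ≤ r * m := Nat.mul_pos hr (by omega)
  have h5 : 2 * (10 * (r * m + r * m + r * m) + 1) ^ 2 ≤ 1922 * (r * m) ^ 2 := by nlinarith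
  have h6 : m * (m * m) ≤ 1922 * r ^ 2 * (m * m) := by nlinarith
  have h7 : 0 < m * m := by
    have : 0 < m := by omega
    positivity
  have h8 := Nat.le_of_mul_le_mul_right h6 h7
  omega

end Pool.Agent.H127R3.GK
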