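import Mathlib

set_option autoImplicit false

/-! Three left free Ore steps give linearly independent ordered monomials. -/

namespace Pool.Agent.H127R3.GK

variable {k A : Type} [Field k] [Ring A] [Algebra k A]

/-- the extension by zero of a family indexed by `Fin m` -/
lemma sum_fin_range {m : ℕ} (f : Fin m → A) (g : ℕ → A) :
    ∑ j ∈ Finset.range m, (if h : j < m then f ⟨j, h⟩ else 0) * g j = ∑ j : Fin m, f j * g j := by
  rw [← Fin.sum_univ_eq_sum_range (fun j => (if h : j < m then f ⟨j, h⟩ else 0) * g j) m]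
  refine Finset.sum_congr rfl fun j _ => ?_
  rw [dif_pos j.2]

lemma free_fin {B : Subalgebra k A} {x : A}
    (h : ∀ m : ℕ, ∀ c : ℕ → A, (∀ j, c j ∈ B) →
          ∑ j ∈ Finset.range m, c j * x ^ j = 0 → ∀ j, j < m → c j = 0)
    {m : ℕ} (f : Fin m → A) (hf : ∀ j, f j ∈ B) (hs : ∑ j : Fin m, f j * x ^ (j : ℕ) = 0)
    (j : Fin m) : f j = 0 := by
  have h1 := h m (fun j => if h : j < m then f ⟨j, h⟩ else 0) (by
    intro j
    by_cases hj : j < m
    · simp only [dif_pos hj]; exact hf _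
    · simp only [dif_neg hj]; exact B.zero_mem) (by rw [sum_fin_range f (fun j => x ^ j)]; exact hs)
    j j.2
  simpa using h1

theorem li_three {X : ℕ → A} {B : ℕ → Subalgebra k A}
    (hB : ∀ i, B i = Algebra.adjoin k (X '' {j | j < i}))
    (h : ∀ i, i < 3 → ∀ m : ℕ, ∀ c : ℕ → A, (∀ j, c j ∈ B i) →
          ∑ j ∈ Finset.range m, c j * X i ^ j = 0 → ∀ j, j < m → c j = 0) [Nontrivial A] (m : ℕ) :
    LinearIndependent k
      (fun t : Fin m × Fin m × Fin m => X 0 ^ (t.1 : ℕ) * X 1 ^ (t.2.1 : ℕ) * X 2 ^ (t.2.2 : ℕ)) := by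
  have hX : ∀ i j : ℕ, j < i → X j ∈ B i := by
    intro i j hj
    rw [hB]
    exact Algebra.subset_adjoin ⟨j, hj, rfl⟩
  rw [Fintype.linearIndependent_iff]
  intro l hl
  -- regroup
  have e2 : ∀ c : Fin m, ∑ b : Fin m, (∑ a : Fin m, l (a, b, c) • X 0 ^ (a : ℕ)) * X 1 ^ (b : ℕ) = 0 := by
    apply free_fin (h 2 (by norm_num))
      (fun c => ∑ b : Fin m, (∑ a : Fin m, l (a, b, c) • X 0 ^ (a : ℕ)) * X 1 ^ (b : ℕ))
    · intro c
      refine Subalgebra.sum_mem _ fun b _ => Subalgebra.mul_mem _ (Subalgebra.sum_mem _ fun a _ =>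
        Subalgebra.smul_mem _ (Subalgebra.pow_mem _ (hX 2 0 (by norm_num)) _) _)
        (Subalgebra.pow_mem _ (hX 2 1 (by norm_num)) _)
    · rw [← hl, Fintype.sum_prod_type]
      simp_rw [Fintype.sum_prod_type, Finset.sum_mul, smul_mul_assoc]
      have : ∀ F : Fin m → Fin m → Fin m → A,
          ∑ c, ∑ b, ∑ a, F a b c = ∑ a, ∑ b, ∑ c, F a b c := by
        intro F
        rw [Finset.sum_comm]
        conv_rhs => rw [Finset.sum_comm]
        exact Finset.sum_congr rfl fun b _ => Finset.sum_comm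
      exact this (fun a b c => l (a, b, c) • (X 0 ^ (a : ℕ) * X 1 ^ (b : ℕ) * X 2 ^ (c : ℕ)))
  have e1 : ∀ c b : Fin m, ∑ a : Fin m, l (a, b, c) • X 0 ^ (a : ℕ) = 0 := by
    intro c
    apply free_fin (h 1 (by norm_num)) (fun b => ∑ a : Fin m, l (a, b, c) • X 0 ^ (a : ℕ))
    · intro b
      exact Subalgebra.sum_mem _ fun a _ =>
        Subalgebra.smul_mem _ (Subalgebra.pow_mem _ (hX 1 0 (by norm_num)) _) _
    · exact e2 c
  rintro ⟨a, b, c⟩
  have e0 : algebraMap k A (l (a, b, c)) = 0 := by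
    apply free_fin (h 0 (by norm_num)) (fun a => algebraMap k A (l (a, b, c)))
    · intro a
      exact Subalgebra.algebraMap_mem _ _
    · have := e1 c b
      simpa [Algebra.smul_def] using this
  exact (map_eq_zero_iff _ (algebraMap k A).injective).1 e0

end Pool.Agent.H127R3.GK
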